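import Pool.Agent.H852R2.DM.Defs

/-! From the gap at the levels 1 and 2 to mixing on pairs of points. -/

namespace DM852
open RC14 RC852 Finset Filter Equiv

namespace PAIRMIX

variable {n r a : ℕ}

/-- the simple random walk operator -/
noncomputable def P (x : Fin a → Alt n) (f : Tup r n → ℝ) (p : Tup r n) : ℝ :=
  (∑ i, (f (mv (x i : Perm (Fin n)) p) + f (mv (x i : Perm (Fin n))⁻¹ p))) / (2 * a)

/-- the lazy random walk operator -/
noncomputable def T (x : Fin a → Alt n) (f : Tup r n → ℝ) (p : Tup r n) : ℝ :=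
  (f p + P x f p) / 2

lemma sum_mv (h : Perm (Fin n)) (F : Tup r n → ℝ) : ∑ p, F (mv h p) = ∑ p, F p :=
  Equiv.sum_comp (mvE h) F

lemma P_sub (x : Fin a → Alt n) (f g : Tup r n → ℝ) (t : ℝ) :
    P x (fun p => f p - t * g p) = fun p => P x f p - t * P x g p := by
  funext p
  unfold P
  rw [mul_div_assoc', ← sub_div, Finset.mul_sum, ← Finset.sum_sub_distrib]
  congr 1
  exact Finset.sum_congr rfl fun i _ => by ring

lemma T_sub (x : Fin a → Alt n) (f g : Tup r n → ℝ) (t : ℝ) :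
    T x (fun p => f p - t * g p) = fun p => T x f p - t * T x g p := by
  funext p
  unfold T
  rw [P_sub]
  ring

lemma P_sum (ha : 1 ≤ a) (x : Fin a → Alt n) (f : Tup r n → ℝ) : ∑ p, P x f p = ∑ p, f p := by
  have ha' : (0 : ℝ) < a := by exact_mod_cast ha
  unfold P
  rw [← Finset.sum_div, Finset.sum_comm, div_eq_iff (by positivity)]
  have : ∀ i ∈ (Finset.univ : Finset (Fin a)),
      ∑ p, (f (mv (x i : Perm (Fin n)) p) + f (mv (x i : Perm (Fin n))⁻¹ p)) = 2 * ∑ p, f p := by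
    intro i _
    rw [Finset.sum_add_distrib, sum_mv, sum_mv]
    ring
  rw [Finset.sum_congr rfl this, Finset.sum_const, Finset.card_univ, Fintype.card_fin,
    nsmul_eq_mul]
  ring

lemma T_sum (ha : 1 ≤ a) (x : Fin a → Alt n) (f : Tup r n → ℝ) : ∑ p, T x f p = ∑ p, f p := by
  unfold T
  rw [← Finset.sum_div, Finset.sum_add_distrib, P_sum ha]
  ring

lemma P_symm (x : Fin a → Alt n) (f g : Tup r n → ℝ) :
    ∑ p, f p * P x g p = ∑ p, P x f p * g p := by
  have h1 : ∀ h : Perm (Fin n), ∑ p, f p * g (mv h p) = ∑ p, f (mv h⁻¹ p) * g p := by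
    intro h
    rw [← sum_mv h fun p => f (mv h⁻¹ p) * g p]
    refine Finset.sum_congr rfl fun p _ => ?_
    rw [← mv_mul]
    simp
  have h2 : ∀ h : Perm (Fin n), ∑ p, f p * g (mv h⁻¹ p) = ∑ p, f (mv h p) * g p := by
    intro h
    rw [h1 h⁻¹, inv_inv]
  unfold P
  simp only [mul_div_assoc', div_mul_eq_mul_div]
  rw [← Finset.sum_div, ← Finset.sum_div]
  congr 1
  simp only [Finset.mul_sum, Finset.sum_mul]
  rw [Finset.sum_comm, Finset.sum_comm (γ := Tup r n)]
  refine Finset.sum_congr rfl fun i _ => ?_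
  simp only [mul_add, add_mul]
  rw [Finset.sum_add_distrib, Finset.sum_add_distrib, h1, h2, add_comm]

lemma T_symm (x : Fin a → Alt n) (f g : Tup r n → ℝ) :
    ∑ p, f p * T x g p = ∑ p, T x f p * g p := by
  unfold T
  have h1 : ∀ p, f p * ((g p + P x g p) / 2) = (f p * g p) / 2 + (f p * P x g p) / 2 := by
    intro p; ring
  have h2 : ∀ p, (f p + P x f p) / 2 * g p = (f p * g p) / 2 + (P x f p * g p) / 2 := by
    intro p; ring
  simp only [h1, h2]
  rw [Finset.sum_add_distrib, Finset.sum_add_distrib, ← Finset.sum_div _ (fun p => f p * P x g p),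
    ← Finset.sum_div _ (fun p => P x f p * g p), P_symm]

lemma P_lower (ha : 1 ≤ a) (x : Fin a → Alt n) (f : Tup r n → ℝ) :
    -∑ p, f p ^ 2 ≤ ∑ p, f p * P x f p := by
  have ha' : (0 : ℝ) < a := by exact_mod_cast ha
  have h1 : ∀ h : Perm (Fin n), -∑ p, f p ^ 2 ≤ ∑ p, f p * f (mv h p) := by
    intro h
    have h2 : ∑ p, f (mv h p) ^ 2 = ∑ p, f p ^ 2 := sum_mv h fun p => f p ^ 2
    have h3 : ∑ p, (-(f p ^ 2 + f (mv h p) ^ 2) / 2) ≤ ∑ p, f p * f (mv h p) := by
      refine Finset.sum_le_sum fun p _ => ?_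
      nlinarith [sq_nonneg (f p + f (mv h p))]
    refine le_trans (le_of_eq ?_) h3
    rw [← Finset.sum_div, Finset.sum_neg_distrib, Finset.sum_add_distrib, h2]
    ring
  unfold P
  simp only [mul_div_assoc']
  rw [← Finset.sum_div, le_div_iff₀ (by positivity)]
  simp only [Finset.mul_sum]
  rw [Finset.sum_comm]
  have h4 : ∑ i : Fin a, (2 * (-∑ p, f p ^ 2)) ≤ ∑ i : Fin a,
      ∑ p, f p * (f (mv (x i : Perm (Fin n)) p) + f (mv (x i : Perm (Fin n))⁻¹ p)) := by
    refine Finset.sum_le_sum fun i _ => ?_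
    simp only [mul_add]
    rw [Finset.sum_add_distrib]
    have := h1 (x i : Perm (Fin n))
    have := h1 (x i : Perm (Fin n))⁻¹
    linarith
  refine le_trans (le_of_eq ?_) h4
  rw [Finset.sum_const, Finset.card_univ, Fintype.card_fin, nsmul_eq_mul]
  ring

lemma T_nonneg (ha : 1 ≤ a) (x : Fin a → Alt n) (f : Tup r n → ℝ) :
    0 ≤ ∑ p, f p * T x f p := by
  have h1 : ∀ p, f p * T x f p = (f p ^ 2 + f p * P x f p) / 2 := by
    intro p; unfold T; ring
  simp only [h1]
  rw [← Finset.sum_div, Finset.sum_add_distrib]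
  have := P_lower ha x f
  linarith

lemma T_upper (ha : 1 ≤ a) (hn : 4 ≤ n) (hr : r ≤ 2) (x : Fin a → Alt n) (c : ℝ)
    (hx : Good1 n 2 c x) (f : Tup r n → ℝ) (hf : ∑ p, f p = 0) :
    ∑ p, f p * T x f p ≤ (1 - c / (4 * a)) * ∑ p, f p ^ 2 := by
  have h1 : ∀ p, f p * T x f p = (f p ^ 2 + f p * P x f p) / 2 := by
    intro p; unfold T; ring
  simp only [h1]
  rw [← Finset.sum_div, Finset.sum_add_distrib]
  have h2 := FRSCH n 2 a (by omega) ha x c hx r hr f hf
  have h3 : ∑ p, f p * P x f p ≤ (1 - c / (2 * a)) * ∑ p, f p ^ 2 := h2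
  have h4 : c / (2 * a) = 2 * (c / (4 * a)) := by
    have ha' : (0 : ℝ) < a := by exact_mod_cast ha
    field_simp
    norm_num
  rw [h4] at h3
  linarith

lemma T_contr (ha : 1 ≤ a) (hn : 4 ≤ n) (hr : r ≤ 2) (x : Fin a → Alt n) (c : ℝ)
    (hx : Good1 n 2 c x) (hc : 0 < 1 - c / (4 * a)) (f : Tup r n → ℝ) (hf : ∑ p, f p = 0) :
    ∑ p, T x f p ^ 2 ≤ (1 - c / (4 * a)) ^ 2 * ∑ p, f p ^ 2 := by
  obtain ⟨l, hl⟩ : ∃ l : ℝ, l = 1 - c / (4 * a) := ⟨_, rfl⟩
  have hg : ∑ p, T x f p = 0 := by rw [T_sum ha, hf]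
  have h1 := T_upper ha hn hr x c hx f hf
  have h2 := T_upper ha hn hr x c hx (T x f) hg
  have h3 := T_nonneg ha x fun p => f p - l⁻¹ * T x f p
  rw [T_sub] at h3
  rw [← hl] at h1 h2 hc ⊢
  have e1 : ∑ p, (f p - l⁻¹ * T x f p) * (T x f p - l⁻¹ * T x (T x f) p) =
      ∑ p, f p * T x f p - l⁻¹ * ∑ p, f p * T x (T x f) p - l⁻¹ * ∑ p, T x f p ^ 2 +
        l⁻¹ ^ 2 * ∑ p, T x f p * T x (T x f) p := by
    rw [Finset.mul_sum, Finset.mul_sum, Finset.mul_sum, ← Finset.sum_sub_distrib,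
      ← Finset.sum_sub_distrib, ← Finset.sum_add_distrib]
    exact Finset.sum_congr rfl fun p _ => by ring
  have e2 : ∑ p, f p * T x (T x f) p = ∑ p, T x f p ^ 2 := by
    rw [T_symm x f (T x f)]
    exact Finset.sum_congr rfl fun p _ => by ring
  rw [e1, e2] at h3
  have h4 : l⁻¹ ^ 2 * ∑ p, T x f p * T x (T x f) p ≤ l⁻¹ ^ 2 * (l * ∑ p, T x f p ^ 2) :=
    mul_le_mul_of_nonneg_left h2 (by positivity)
  have h5 : l⁻¹ ^ 2 * (l * ∑ p, T x f p ^ 2) = l⁻¹ * ∑ p, T x f p ^ 2 := by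
    field_simp
  have h6 : l⁻¹ * ∑ p, T x f p ^ 2 ≤ ∑ p, f p * T x f p := by linarith
  have h7 : ∑ p, T x f p ^ 2 ≤ l * ∑ p, f p * T x f p := by
    have := mul_le_mul_of_nonneg_left h6 hc.le
    rwa [← mul_assoc, mul_inv_cancel₀ hc.ne', one_mul] at this
  calc ∑ p, T x f p ^ 2 ≤ l * ∑ p, f p * T x f p := h7
    _ ≤ l * (l * ∑ p, f p ^ 2) := mul_le_mul_of_nonneg_left h1 hc.le
    _ = l ^ 2 * ∑ p, f p ^ 2 := by ring

lemma T_iter (ha : 1 ≤ a) (hn : 4 ≤ n) (hr : r ≤ 2) (x : Fin a → Alt n) (c : ℝ)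
    (hx : Good1 n 2 c x) (hc : 0 < 1 - c / (4 * a)) (M : ℕ) : ∀ (f : Tup r n → ℝ),
    ∑ p, f p = 0 → ∑ p, ((T x)^[M] f) p ^ 2 ≤ ((1 - c / (4 * a)) ^ M) ^ 2 * ∑ p, f p ^ 2 := by
  induction M with
  | zero => intro f _; simp
  | succ M ih =>
    intro f hf
    rw [Function.iterate_succ_apply]
    refine le_trans (ih (T x f) (by rw [T_sum ha, hf])) ?_
    have h1 := T_contr ha hn hr x c hx hc f hf
    calc ((1 - c / (4 * a)) ^ M) ^ 2 * ∑ p, T x f p ^ 2 ≤
        ((1 - c / (4 * a)) ^ M) ^ 2 * ((1 - c / (4 * a)) ^ 2 * ∑ p, f p ^ 2) :=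
          mul_le_mul_of_nonneg_left h1 (by positivity)
      _ = _ := by rw [pow_succ]; ring

/-- one letter -/
lemma T_letters (ha : 1 ≤ a) (x : Fin a → Alt n) (f : Tup r n → ℝ) (p : Tup r n) :
    ∑ s : Fin (a + a) × Bool, f (mv ((sl (xl x) s : Alt n) : Perm (Fin n)) p) = (2 * (a + a)) * T x f p := by
  have ha' : (0 : ℝ) < a := by exact_mod_cast ha
  rw [Fintype.sum_prod_type, Fin.sum_univ_add]
  have h1 : ∀ i : Fin a, ∑ b : Bool, f (mv ((sl (xl x) (Fin.castAdd a i, b) : Alt n) : Perm (Fin n)) p) =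
      f (mv (x i : Perm (Fin n)) p) + f (mv (x i : Perm (Fin n))⁻¹ p) := by
    intro i
    have h3 : xl x (Fin.castAdd a i) = x i := Fin.append_left _ _ i
    rw [Fintype.sum_bool]
    simp only [sl, h3]
    simp
  have h2 : ∀ i : Fin a, ∑ b : Bool, f (mv ((sl (xl x) (Fin.natAdd a i, b) : Alt n) : Perm (Fin n)) p) =
      2 * f p := by
    intro i
    have h3 : xl x (Fin.natAdd a i) = 1 := Fin.append_right _ _ i
    rw [Fintype.sum_bool]
    simp only [sl, h3]
    simp
    ring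
  rw [Finset.sum_congr rfl fun i _ => h1 i, Finset.sum_congr rfl fun i _ => h2 i,
    Finset.sum_const, Finset.card_univ, Fintype.card_fin, nsmul_eq_mul]
  unfold T P
  field_simp
  ring

lemma sum_words {L : Type*} [Fintype L] (M : ℕ) (F : (Fin (M + 1) → L) → ℝ) :
    ∑ v, F v = ∑ s : L, ∑ v : Fin M → L, F (Fin.cons s v) := by
  rw [← (Fin.consEquiv fun _ => L).sum_comp, Fintype.sum_prod_type]
  rfl

lemma words (ha : 1 ≤ a) (x : Fin a → Alt n) (M : ℕ) : ∀ (f : Tup r n → ℝ) (p : Tup r n),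
    ∑ v : Fin M → Fin (a + a) × Bool, f (mv ((wrd (xl x) v : Alt n) : Perm (Fin n)) p) =
      (2 * (a + a)) ^ M * ((T x)^[M] f) p := by
  induction M with
  | zero =>
    intro f p
    simp [wrd]
  | succ M ih =>
    intro f p
    rw [sum_words, Finset.sum_comm, Function.iterate_succ_apply]
    have h1 : ∀ v : Fin M → Fin (a + a) × Bool, ∑ s : Fin (a + a) × Bool,
        f (mv ((wrd (xl x) (Fin.cons s v : Fin (M + 1) → Fin (a + a) × Bool) : Alt n) : Perm (Fin n)) p) =
        (2 * (a + a)) * T x f (mv ((wrd (xl x) v : Alt n) : Perm (Fin n)) p) := by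
      intro v
      rw [← T_letters ha]
      refine Finset.sum_congr rfl fun s _ => ?_
      rw [← mv_mul]
      congr 2
      simp [wrd, List.ofFn_succ]
    rw [Finset.sum_congr rfl fun v _ => h1 v, ← Finset.mul_sum, ih]
    ring

/-- mixing on tuples -/
lemma mixing (ha : 1 ≤ a) (hn : 4 ≤ n) (hr : r ≤ 2) (x : Fin a → Alt n) (c : ℝ)
    (hx : Good1 n 2 c x) (hc : 0 < 1 - c / (4 * a)) (M : ℕ) (p q : Tup r n) :
    |(#{v : Fin M → Fin (a + a) × Bool | mv ((wrd (xl x) v : Alt n) : Perm (Fin n)) p = q} : ℝ) -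
      (Fintype.card (Fin M → Fin (a + a) × Bool) : ℝ) / Fintype.card (Tup r n)| ≤
      (1 - c / (4 * a)) ^ M * Fintype.card (Fin M → Fin (a + a) × Bool) := by
  classical
  have hN : (0 : ℝ) < Fintype.card (Tup r n) := by
    have : Nonempty (Tup r n) := ⟨p⟩
    exact_mod_cast Fintype.card_pos
  obtain ⟨N, hNe⟩ : ∃ N : ℝ, N = Fintype.card (Tup r n) := ⟨_, rfl⟩
  rw [← hNe] at hN ⊢
  have hK : (Fintype.card (Fin M → Fin (a + a) × Bool) : ℝ) = (2 * (a + a)) ^ M := by
    simp [mul_comm]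
  have hK0 : (0 : ℝ) ≤ (2 * (a + a)) ^ M := by positivity
  set f : Tup r n → ℝ := fun u => (if u = q then 1 else 0) - 1 / N with hf
  have hf0 : ∑ u, f u = 0 := by
    rw [hf, Finset.sum_sub_distrib, Finset.sum_ite_eq' Finset.univ q, if_pos (Finset.mem_univ q),
      Finset.sum_const, Finset.card_univ, nsmul_eq_mul, ← hNe]
    field_simp
    norm_num
  have hf2 : ∑ u, f u ^ 2 ≤ 1 := by
    have e1 : ∀ u, f u ^ 2 = (if u = q then 1 - 2 / N else 0) + 1 / N ^ 2 := by
      intro u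
      simp only [hf]
      split_ifs
      · field_simp; ring
      · field_simp; ring
    simp only [e1]
    rw [Finset.sum_add_distrib, Finset.sum_ite_eq' Finset.univ q, if_pos (Finset.mem_univ q),
      Finset.sum_const, Finset.card_univ, nsmul_eq_mul, ← hNe]
    have e2 : 1 - 2 / N + N * (1 / N ^ 2) = 1 - 1 / N := by field_simp; ring
    rw [e2]
    have : 0 < 1 / N := by positivity
    linarith
  have h1 := words ha x M f p
  have h2 : ∑ v : Fin M → Fin (a + a) × Bool, f (mv ((wrd (xl x) v : Alt n) : Perm (Fin n)) p) =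
      (#{v : Fin M → Fin (a + a) × Bool | mv ((wrd (xl x) v : Alt n) : Perm (Fin n)) p = q} : ℝ) -
      (Fintype.card (Fin M → Fin (a + a) × Bool) : ℝ) / N := by
    simp only [hf]
    rw [Finset.sum_sub_distrib, Finset.sum_boole, Finset.sum_const, Finset.card_univ,
      nsmul_eq_mul]
    ring
  rw [← h2, h1, hK, abs_mul, abs_of_nonneg hK0, mul_comm]
  apply mul_le_mul_of_nonneg_right _ hK0
  have h3 := T_iter ha hn hr x c hx hc M f hf0
  have h4 : ((T x)^[M] f) p ^ 2 ≤ ∑ u, ((T x)^[M] f) u ^ 2 :=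
    Finset.single_le_sum (f := fun u => ((T x)^[M] f) u ^ 2) (fun u _ => sq_nonneg _)
      (Finset.mem_univ p)
  have h5 : ((T x)^[M] f) p ^ 2 ≤ ((1 - c / (4 * a)) ^ M) ^ 2 := by
    refine le_trans (le_trans h4 h3) ?_
    have : ((1 - c / (4 * a)) ^ M) ^ 2 * ∑ p, f p ^ 2 ≤ ((1 - c / (4 * a)) ^ M) ^ 2 * 1 :=
      mul_le_mul_of_nonneg_left hf2 (by positivity)
    linarith
  exact abs_le_of_sq_le_sq h5 (by positivity)

end PAIRMIX

open PAIRMIX in
/-- from the gap at the levels 1 and 2 to mixing on pairs of points -/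
theorem PAIRMIX (a : ℕ) (ha : 1 ≤ a) (c : ℝ) (hc : 0 < c) : ∃ C : ℝ, 0 < C ∧
    ∀ᶠ n : ℕ in atTop, ∀ x : Fin a → Alt n, Good1 n 2 c x → ∀ m : ℕ, C * Real.log n ≤ m →
      Mix2 (gx (xl x) m) ∧ Mix (gx (xl x) m) := by
  have ha' : (1 : ℝ) ≤ a := by exact_mod_cast ha
  obtain ⟨d, hd, hd0, hd1, hdc⟩ : ∃ d : ℝ, d = min c 1 ∧ 0 < d ∧ d ≤ 1 ∧ d ≤ c :=
    ⟨_, rfl, lt_min hc one_pos, min_le_right _ _, min_le_left _ _⟩
  have hq : d / (4 * a) ≤ 1 / 4 := by
    rw [div_le_div_iff₀ (by positivity) (by positivity)]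
    nlinarith
  have hl : 0 < 1 - d / (4 * a) := by linarith
  refine ⟨6 * a / d, by positivity, ?_⟩
  filter_upwards [eventually_ge_atTop 4] with n hn x hx m hm
  have hn' : (4 : ℝ) ≤ n := by exact_mod_cast hn
  have hx' : Good1 n 2 d x := by
    intro j hj1 hj2 v hv
    refine le_trans ?_ (hx j hj1 hj2 v hv)
    exact mul_le_mul_of_nonneg_right hdc (by positivity)
  have hpow : (1 - d / (4 * a)) ^ (2 * m) ≤ 1 / (n : ℝ) ^ 3 := by
    have h1 : (1 - d / (4 * a)) ^ (2 * m) ≤ Real.exp (-(d / (4 * a))) ^ (2 * m) := by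
      apply pow_le_pow_left₀ hl.le
      have := Real.add_one_le_exp (-(d / (4 * a)))
      linarith
    refine le_trans h1 ?_
    rw [← Real.exp_nat_mul]
    have h2 : (1 : ℝ) / (n : ℝ) ^ 3 = Real.exp (-(3 * Real.log n)) := by
      rw [Real.exp_neg, show (3 : ℝ) * Real.log n = ((3 : ℕ) : ℝ) * Real.log n by norm_num,
        Real.exp_nat_mul, Real.exp_log (by linarith), one_div]
    rw [h2]
    apply Real.exp_le_exp.2
    push_cast
    have h3 : 3 * Real.log n = 2 * (6 * a / d * Real.log n) * (d / (4 * a)) := by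
      field_simp
      ring
    rw [h3]
    have h4 : 2 * (6 * a / d * Real.log n) * (d / (4 * a)) ≤ 2 * m * (d / (4 * a)) := by
      apply mul_le_mul_of_nonneg_right _ (by positivity)
      linarith
    linarith
  have hK0 : (0 : ℝ) ≤ Fintype.card (Fin (2 * m) → Fin (a + a) × Bool) := by positivity
  constructor
  · intro y z u w hyz huw
    have hp : Function.Injective ![y, z] := by
      intro i j hij
      fin_cases i <;> fin_cases j <;> simp_all
    have hq : Function.Injective ![u, w] := by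
      intro i j hij
      fin_cases i <;> fin_cases j <;> simp_all
    have h1 := mixing ha hn (le_refl 2) x d hx' hl (2 * m) (⟨![y, z], hp⟩ : Tup 2 n)
      ⟨![u, w], hq⟩
    have hcard : (Fintype.card (Tup 2 n) : ℝ) = n * (n - 1) := by
      rw [Fintype.card_embedding_eq, Fintype.card_fin, Fintype.card_fin]
      have : n.descFactorial 2 = n * (n - 1) := by
        simp [Nat.descFactorial, mul_comm]
      rw [this, Nat.cast_mul, Nat.cast_sub (by omega)]
      simp
    have hset : (Finset.univ.filter fun v : Fin (2 * m) → Fin (a + a) × Bool =>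
        mv ((wrd (xl x) v : Alt n) : Perm (Fin n)) (⟨![y, z], hp⟩ : Tup 2 n) = ⟨![u, w], hq⟩) =
        Finset.univ.filter fun v => gx (xl x) m v y = u ∧ gx (xl x) m v z = w := by
      ext v
      simp only [Finset.mem_filter, Finset.mem_univ, true_and]
      constructor
      · intro h
        have e1 := DFunLike.congr_fun h 0
        have e2 := DFunLike.congr_fun h 1
        exact ⟨e1, e2⟩
      · rintro ⟨e1, e2⟩
        refine DFunLike.ext _ _ fun i => ?_
        fin_cases i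
        · exact e1
        · exact e2
    rw [hset, hcard] at h1
    have hNpos : (0 : ℝ) < n * (n - 1) := by nlinarith
    have e3 : (#{v | gx (xl x) m v y = u ∧ gx (xl x) m v z = w} : ℝ) * (n * (n - 1)) -
        Fintype.card (Fin (2 * m) → Fin (a + a) × Bool) =
        ((#{v | gx (xl x) m v y = u ∧ gx (xl x) m v z = w} : ℝ) -
        (Fintype.card (Fin (2 * m) → Fin (a + a) × Bool) : ℝ) / (n * (n - 1))) *
          (n * (n - 1)) := by
      rw [sub_mul, div_mul_cancel₀ _ hNpos.ne']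
    rw [e3, abs_mul, abs_of_pos hNpos]
    calc _ ≤ ((1 - d / (4 * a)) ^ (2 * m) *
          Fintype.card (Fin (2 * m) → Fin (a + a) × Bool)) * (n * (n - 1)) :=
          mul_le_mul_of_nonneg_right h1 hNpos.le
      _ ≤ (1 / (n : ℝ) ^ 3 * Fintype.card (Fin (2 * m) → Fin (a + a) × Bool)) * (n * n) := by
          apply mul_le_mul
          · exact mul_le_mul_of_nonneg_right hpow hK0
          · nlinarith
          · exact hNpos.le
          · positivity
      _ = _ := by field_simp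
  · intro y z
    have hp : Function.Injective ![y] := by
      intro i j hij
      exact Subsingleton.elim _ _
    have hq : Function.Injective ![z] := by
      intro i j hij
      exact Subsingleton.elim _ _
    have h1 := mixing ha hn (by norm_num : 1 ≤ 2) x d hx' hl (2 * m) (⟨![y], hp⟩ : Tup 1 n)
      ⟨![z], hq⟩
    have hcard : (Fintype.card (Tup 1 n) : ℝ) = n := by
      rw [Fintype.card_embedding_eq, Fintype.card_fin, Fintype.card_fin]
      simp
    have hset : (Finset.univ.filter fun v : Fin (2 * m) → Fin (a + a) × Bool =>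
        mv ((wrd (xl x) v : Alt n) : Perm (Fin n)) (⟨![y], hp⟩ : Tup 1 n) = ⟨![z], hq⟩) =
        Finset.univ.filter fun v => gx (xl x) m v y = z := by
      ext v
      simp only [Finset.mem_filter, Finset.mem_univ, true_and]
      constructor
      · intro h
        exact DFunLike.congr_fun h 0
      · intro e1
        refine DFunLike.ext _ _ fun i => ?_
        fin_cases i
        exact e1
    rw [hset, hcard] at h1
    have h2 := (abs_le.1 h1).2
    have h3 : (1 - d / (4 * a)) ^ (2 * m) * Fintype.card (Fin (2 * m) → Fin (a + a) × Bool) ≤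
        1 / (n : ℝ) * Fintype.card (Fin (2 * m) → Fin (a + a) × Bool) := by
      apply mul_le_mul_of_nonneg_right _ hK0
      refine le_trans hpow ?_
      apply one_div_le_one_div_of_le (by linarith)
      nlinarith [sq_nonneg ((n : ℝ) - 1)]
    have h4 : (2 : ℝ) / n * Fintype.card (Fin (2 * m) → Fin (a + a) × Bool) =
        1 / (n : ℝ) * Fintype.card (Fin (2 * m) → Fin (a + a) × Bool) +
        (Fintype.card (Fin (2 * m) → Fin (a + a) × Bool) : ℝ) / n := by ring
    rw [h4]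
    linarith

end DM852
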